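import Pool.Agent.T2H99.HY.Final

/-!
A hypercyclic `L^p`-multiplier of the hyperbolic space `H³` whose symbol is bounded by one on the
strip, for every `p > 2` (MP_e4fe74_an).

`H³ = SO₀(1,3) / SO(3)` is the hyperboloid `t² - |x|² = 1`, `t > 0`, of `ℝ × ℝ³`; it is identified
with `ℝ³` by the coordinate `x`.  Here `ρ = 1` and `γ_p = 1 - 2/p`.
-/

set_option autoImplicit false

noncomputable section

open MeasureTheory Filter Topology
open scoped ENNReal

namespace Pool.Agent.Results.MP_e4fe74_an.HypercyclicMultiplier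

/-- Euclidean three-space. -/
abbrev E3 := EuclideanSpace ℝ (Fin 3)

/-- The point `(√(1 + |x|²), x)` of the hyperboloid over `x`. -/
def pt (x : E3) : ℝ × E3 := (Real.sqrt (1 + ‖x‖ ^ 2), x)

/-- The Minkowski form `a₀ b₀ - ⟨a, b⟩`. -/
def form (a b : ℝ × E3) : ℝ := a.1 * b.1 - inner ℝ a.2 b.2

/-- The linear maps of `ℝ × ℝ³` which preserve the Minkowski form and the sheet `t > 0` (the
orthochronous Lorentz group; it contains `G = SO₀(1,3)`). -/
def IsLorentz (g : (ℝ × E3) →ₗ[ℝ] (ℝ × E3)) : Prop :=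
  (∀ a b, form (g a) (g b) = form a b) ∧ 0 < (g (1, 0)).1

/-- The action on `H³`, in the coordinate `x`. -/
def move (g : (ℝ × E3) →ₗ[ℝ] (ℝ × E3)) (x : E3) : E3 := (g (pt x)).2

/-- The invariant measure `dx / √(1 + |x|²)` of `H³`. -/
def vol : Measure E3 :=
  volume.withDensity (fun x => ENNReal.ofReal (1 / Real.sqrt (1 + ‖x‖ ^ 2)))

/-- The kernel `(√(1 + |x|²) - ⟨x, b⟩)^(iλ - 1)` of the Helgason-Fourier transform; `b` runs
through the unit sphere. -/
def wave (l : ℂ) (b x : E3) : ℂ :=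
  ((Real.sqrt (1 + ‖x‖ ^ 2) - inner ℝ x b : ℝ) : ℂ) ^ (Complex.I * l - 1)

/-- The Helgason-Fourier transform `F~(λ, b)`. -/
def transform (F : E3 → ℂ) (l : ℂ) (b : E3) : ℂ := ∫ x, F x * wave l b x ∂vol

/-- The space `L^p(H³)` (classes of functions). -/
def LL (p : ℝ) : Type := Lp ℂ (ENNReal.ofReal p) vol

/-- The norm of `L^p(H³)` (Mathlib). -/
instance normLL (p : ℝ) [Fact (1 ≤ ENNReal.ofReal p)] : NormedAddCommGroup (LL p) :=
  Lp.instNormedAddCommGroup (E := ℂ) (p := ENNReal.ofReal p) (μ := vol)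

/-- The vector space structure of `L^p(H³)` (Mathlib). -/
instance spaceLL (p : ℝ) [Fact (1 ≤ ENNReal.ofReal p)] : NormedSpace ℂ (LL p) :=
  Lp.instNormedSpace (𝕜 := ℂ) (E := ℂ) (p := ENNReal.ofReal p) (μ := vol)

/-- The function (a representative) given by an element of `L^p(H³)`. -/
def fn (p : ℝ) : LL p → E3 → ℂ := fun (f : Lp ℂ (ENNReal.ofReal p) vol) => (f : E3 → ℂ)

/-- The bounded linear operators on `L^p(H³)`. -/
abbrev Op (p : ℝ) [Fact (1 ≤ ENNReal.ofReal p)] := LL p →L[ℂ] LL p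

/-- `T` commutes with the translations (which preserve the measure). -/
def CommutesWithTranslations (p : ℝ) [Fact (1 ≤ ENNReal.ofReal p)] (T : Op p) : Prop :=
  ∀ g : (ℝ × E3) →ₗ[ℝ] (ℝ × E3), IsLorentz g → MeasurePreserving (move g) vol vol ∧
    ∀ f f' : LL p, fn p f' =ᵐ[vol] fn p f ∘ move g →
      fn p (T f') =ᵐ[vol] fn p (T f) ∘ move g

/-- `(T f)~(λ, b) = m(λ) f~(λ, b)` for `f ∈ C_c^∞` and `λ` in the closed strip `Λ_p`, both
transforms being absolutely convergent integrals. -/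
def ActsBySymbol (p : ℝ) [Fact (1 ≤ ENNReal.ofReal p)] (T : Op p) (m : ℂ → ℂ) : Prop :=
  ∀ (φ : E3 → ℂ) (f : LL p), ContDiff ℝ (⊤ : ℕ∞) φ → HasCompactSupport φ →
    fn p f =ᵐ[vol] φ → ∀ b : E3, ‖b‖ = 1 → ∀ l : ℂ, |l.im| ≤ |2 / p - 1| →
      Integrable (fun x => φ x * wave l b x) vol ∧
      Integrable (fun x => fn p (T f) x * wave l b x) vol ∧
      transform (fn p (T f)) l b = m l * transform φ l b

/-- `m` is even, holomorphic inside the strip `Λ_p` and continuous on it. -/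
def IsSymbolFunction (p : ℝ) (m : ℂ → ℂ) : Prop :=
  (∀ l, m (-l) = m l) ∧ DifferentiableOn ℂ m {l | |l.im| < |2 / p - 1|} ∧
    ContinuousOn m {l | |l.im| ≤ |2 / p - 1|}

/-- `T` is an `L^p`-multiplier of `H³` with symbol `m`. -/
def IsMultiplier (p : ℝ) [Fact (1 ≤ ENNReal.ofReal p)] (T : Op p) (m : ℂ → ℂ) : Prop :=
  CommutesWithTranslations p T ∧ ActsBySymbol p T m ∧ IsSymbolFunction p m

/-- `T` is hypercyclic: some orbit is dense. -/
def Hypercyclic (p : ℝ) [Fact (1 ≤ ENNReal.ofReal p)] (T : Op p) : Prop :=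
  ∃ f : LL p, Dense (Set.range fun n : ℕ => (T ^ n) f)

/-- The function `m(λ) = tanh² (π λ / (4 (1 - 2/p)))`. -/
def symb (p : ℝ) (l : ℂ) : ℂ := Complex.tanh (Real.pi * l / (4 * (1 - 2 / p))) ^ 2

/-- For every `p > 2` the function `m(λ) = tanh² (π λ / (4 (1 - 2/p)))` is the symbol of an
`L^p`-multiplier `T` of `H³`, it is bounded by `1` on the closed strip `Λ_p`, and `T` is
hypercyclic on `L^p(H³)`. -/
theorem result (p : ℝ) (hp : 2 < p) [Fact (1 ≤ ENNReal.ofReal p)] :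
    ∃ T : Op p, IsMultiplier p T (symb p) ∧ (∀ l : ℂ, |l.im| ≤ |2 / p - 1| → ‖symb p l‖ ≤ 1) ∧
      Hypercyclic p T := by
  have hγ : 0 < 1 - 2 / p := by
    have : 2 / p < 1 := by rw [div_lt_one (by linarith)]; exact hp
    linarith
  have habs : |2 / p - 1| = 1 - 2 / p := by
    rw [abs_sub_comm, abs_of_pos hγ]
  have hsym : symb p = Pool.Agent.T2H99.HY.Final.sym (1 - 2 / p) := by
    funext l
    unfold symb Pool.Agent.T2H99.HY.Final.sym
    push_cast
    rfl
  obtain ⟨T, h1, h2, h3⟩ := Pool.Agent.T2H99.HY.Final.final p hp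
  refine ⟨T, ⟨?_, ?_, ?_, ?_, ?_⟩, ?_, h3⟩
  · intro g hg
    obtain ⟨h, hT⟩ := h1 g ⟨hg.1, hg.2⟩
    refine ⟨h, fun (f f' : Lp ℂ (ENNReal.ofReal p) Pool.Agent.T2H99.HY.mu) hff' => ?_⟩
    have e1 : f' = Lp.compMeasurePreserving (Pool.Agent.T2H99.HY.act g) h f := by
      apply Lp.ext
      have e2 := Lp.coeFn_compMeasurePreserving f h
      exact Filter.EventuallyEq.trans hff' e2.symm
    have e4 := Lp.coeFn_compMeasurePreserving (T f) h
    rw [← hT f, ← e1] at e4
    exact e4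
  · intro φ f hφ hφc hf b hb l hl
    rw [habs] at hl
    obtain ⟨a1, a2, a3⟩ := h2 φ f hφ.continuous hφc hf b hb l (by linarith)
    have e1 : (fun x => fn p f x * wave l b x) =ᵐ[vol] fun x => φ x * wave l b x := by
      filter_upwards [hf] with x hx
      rw [hx]
    refine ⟨Integrable.congr a1 e1, a2, ?_⟩
    rw [hsym]
    refine a3.trans ?_
    congr 1
    exact integral_congr_ae e1
  · rw [hsym]
    exact Pool.Agent.T2H99.HY.Final.sym_even _
  · intro l hl
    rw [Set.mem_setOf_eq, habs] at hl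
    rw [hsym]
    exact (Pool.Agent.T2H99.HY.Final.sym_diff hγ (by linarith)).differentiableWithinAt
  · intro l hl
    rw [Set.mem_setOf_eq, habs] at hl
    rw [hsym]
    exact (Pool.Agent.T2H99.HY.Final.sym_diff hγ (by linarith)).continuousAt.continuousWithinAt
  · intro l hl
    rw [habs] at hl
    rw [hsym]
    exact Pool.Agent.T2H99.HY.Final.sym_le hγ hl

end Pool.Agent.Results.MP_e4fe74_an.HypercyclicMultiplier
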